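import Mathlib

set_option autoImplicit false

namespace Pool.Agent.H1.Agree

/-- `l` lists every element of `X` exactly once, i.e. it is a linear order of the ground set `X`
(the elements in increasing order). -/
def IsLinearOrderList {X : Type} (l : List X) : Prop := l.Nodup ∧ ∀ x : X, x ∈ l

/-- The number `k` of comparable pairs `x < y` of the poset `X`. -/
noncomputable def numComparable (X : Type) [PartialOrder X] : ℕ :=
  Set.ncard {p : X × X | p.1 < p.2}

/-- The number of comparable pairs `x < y` of the poset that agree with the linear order `l`,
i.e. such that `x` precedes `y` in `l`. -/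
noncomputable def numAgree {X : Type} [PartialOrder X] [DecidableEq X] (l : List X) : ℕ :=
  Set.ncard {p : X × X | p.1 < p.2 ∧ l.idxOf p.1 < l.idxOf p.2}

/-- `a_i(P)`: the number of linear orders of the ground set with exactly `i` agreeing pairs. -/
noncomputable def agreeSeq (X : Type) [PartialOrder X] [DecidableEq X] (i : ℕ) : ℕ :=
  Set.ncard {l : List X | IsLinearOrderList l ∧ numAgree l = i}

end Pool.Agent.H1.Agree
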