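import Pool.Agent.H1.Agree.Defs

set_option autoImplicit false

namespace Pool.Agent.H1.Agree

section gen

variable {X : Type} [PartialOrder X] [DecidableEq X] [DecidableLT X]

/-- recursive form of the number of agreeing pairs -/
def agr : List X → ℕ
  | [] => 0
  | y :: l => l.countP (fun z => decide (y < z)) + agr l

/-- recursive count -/
def F : ℕ → List X → ℕ → ℕ
  | 0, _, i => if i = 0 then 1 else 0
  | n + 1, S, i => (S.map (fun y =>
      if (S.erase y).countP (fun z => decide (y < z)) ≤ i then
        F n (S.erase y) (i - (S.erase y).countP (fun z => decide (y < z))) else 0)).sum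

/-- the finset of arrangements -/
def T : ℕ → List X → ℕ → Finset (List X)
  | 0, _, i => if i = 0 then {[]} else ∅
  | n + 1, S, i => S.toFinset.biUnion (fun y =>
      if (S.erase y).countP (fun z => decide (y < z)) ≤ i then
        (T n (S.erase y) (i - (S.erase y).countP (fun z => decide (y < z)))).image
          (fun l => y :: l) else ∅)

theorem mem_T : ∀ (n : ℕ) (S : List X), S.length = n → ∀ (i : ℕ) (l : List X),
    l ∈ T n S i ↔ l.Perm S ∧ agr l = i := by
  intro n
  induction n with
  | zero =>
    intro S hS i l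
    rw [List.length_eq_zero_iff] at hS
    subst hS
    rw [T]
    constructor
    · intro h
      split_ifs at h with hi
      · rw [Finset.mem_singleton] at h
        subst h
        exact ⟨List.Perm.refl _, by simp [agr, hi]⟩
      · simp at h
    · rintro ⟨h1, h2⟩
      have := h1.eq_nil
      subst this
      rw [agr] at h2
      rw [if_pos h2.symm]
      simp
  | succ n ih =>
    intro S hS i l
    rw [T, Finset.mem_biUnion]
    constructor
    · rintro ⟨y, hy, hl⟩
      rw [List.mem_toFinset] at hy
      have hlen : (S.erase y).length = n := by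
        rw [List.length_erase_of_mem hy, hS]; rfl
      split_ifs at hl with hi
      · rw [Finset.mem_image] at hl
        obtain ⟨l', hl', rfl⟩ := hl
        rw [ih _ hlen] at hl'
        refine ⟨(List.Perm.cons y hl'.1).trans (List.perm_cons_erase hy).symm, ?_⟩
        rw [agr, hl'.1.countP_eq, hl'.2]
        omega
      · simp at hl
    · rintro ⟨h1, h2⟩
      cases l with
      | nil =>
        have := h1.length_eq
        rw [hS] at this
        simp at this
      | cons y l' =>
        have hy : y ∈ S := h1.subset (List.mem_cons_self)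
        have hlen : (S.erase y).length = n := by
          rw [List.length_erase_of_mem hy, hS]; rfl
        have hp : l'.Perm (S.erase y) := (List.cons_perm_iff_perm_erase.1 h1).2
        rw [agr, hp.countP_eq] at h2
        refine ⟨y, List.mem_toFinset.2 hy, ?_⟩
        rw [if_pos (by omega), Finset.mem_image]
        refine ⟨l', ?_, rfl⟩
        rw [ih _ hlen]
        exact ⟨hp, by omega⟩

theorem card_T : ∀ (n : ℕ) (S : List X), S.Nodup → ∀ i, (T n S i).card = F n S i := by
  intro n
  induction n with
  | zero =>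
    intro S _ i
    rw [T, F]
    split_ifs <;> simp
  | succ n ih =>
    intro S hS i
    rw [T, F, Finset.card_biUnion]
    · rw [List.sum_toFinset _ hS]
      congr 1
      apply List.map_congr_left
      intro y _
      split_ifs with h
      · rw [Finset.card_image_of_injective, ih _ (hS.erase y)]
        intro a b hab
        exact (List.cons.inj hab).2
      · simp
    · intro x _ y _ hxy
      rw [Function.onFun, Finset.disjoint_left]
      intro l hl hl'
      split_ifs at hl hl' with h1 h2
      · rw [Finset.mem_image] at hl hl'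
        obtain ⟨a, -, rfl⟩ := hl
        obtain ⟨b, -, hb⟩ := hl'
        exact hxy (List.cons.inj hb).1.symm
      all_goals simp_all

/-- the recursive form agrees with the definition -/
theorem agr_eq : ∀ (l : List X), l.Nodup →
    Set.ncard {p : X × X | p.1 < p.2 ∧ l.idxOf p.1 < l.idxOf p.2 ∧ p.2 ∈ l} = agr l := by
  intro l
  induction l with
  | nil =>
    intro _
    simp [agr]
  | cons y l ih =>
    intro hnd
    rw [List.nodup_cons] at hnd
    have hsplit : {p : X × X | p.1 < p.2 ∧ (y :: l).idxOf p.1 < (y :: l).idxOf p.2 ∧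
        p.2 ∈ (y :: l)} =
        ((fun z => (y, z)) '' {z | z ∈ l ∧ y < z}) ∪
        {p : X × X | p.1 < p.2 ∧ l.idxOf p.1 < l.idxOf p.2 ∧ p.2 ∈ l} := by
      ext ⟨a, b⟩
      simp only [Set.mem_ofPred_eq, Set.mem_union, Set.mem_image, Prod.mk.injEq, List.mem_cons]
      constructor
      · rintro ⟨h1, h2, h3⟩
        have hb : b ≠ y := by
          rintro rfl
          rw [List.idxOf_cons_self] at h2
          omega
        have hbl : b ∈ l := h3.resolve_left hb
        by_cases ha : a = y
        · left
          subst ha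
          exact ⟨b, ⟨hbl, h1⟩, rfl, rfl⟩
        · right
          rw [List.idxOf_cons_ne _ (Ne.symm ha), List.idxOf_cons_ne _ (Ne.symm hb)] at h2
          exact ⟨h1, by omega, hbl⟩
      · rintro (⟨z, ⟨h1, h2⟩, rfl, rfl⟩ | ⟨h1, h2, h3⟩)
        · refine ⟨h2, ?_, Or.inr h1⟩
          have hz : y ≠ z := by rintro rfl; exact hnd.1 h1
          rw [List.idxOf_cons_self, List.idxOf_cons_ne _ hz]
          omega
        · have hb : y ≠ b := by rintro rfl; exact hnd.1 h3
          have hal : a ∈ l := by
            rw [← List.idxOf_lt_length_iff] at h3 ⊢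
            omega
          have ha : y ≠ a := by rintro rfl; exact hnd.1 hal
          refine ⟨h1, ?_, Or.inr h3⟩
          rw [List.idxOf_cons_ne _ ha, List.idxOf_cons_ne _ hb]
          omega
    have hfin1 : {z | z ∈ l ∧ y < z}.Finite := by
      apply (l.toFinset.finite_toSet).subset
      rintro z ⟨hz, -⟩
      simpa using hz
    have hfin2 : {p : X × X | p.1 < p.2 ∧ l.idxOf p.1 < l.idxOf p.2 ∧ p.2 ∈ l}.Finite := by
      apply ((l.toFinset ×ˢ l.toFinset).finite_toSet).subset
      rintro ⟨a, b⟩ ⟨-, h2, h3⟩
      simp only at h2 h3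
      have hal : a ∈ l := by
        have h3' := h3
        rw [← List.idxOf_lt_length_iff] at h3' ⊢
        omega
      simp [hal, h3]
    have hdis : Disjoint ((fun z => (y, z)) '' {z | z ∈ l ∧ y < z})
        {p : X × X | p.1 < p.2 ∧ l.idxOf p.1 < l.idxOf p.2 ∧ p.2 ∈ l} := by
      rw [Set.disjoint_left]
      rintro p ⟨z, -, rfl⟩ ⟨-, h2, h3⟩
      simp only at h2 h3
      apply hnd.1
      rw [← List.idxOf_lt_length_iff] at h3 ⊢
      omega
    rw [hsplit, Set.ncard_union_eq hdis (hfin1.image _) hfin2, ih hnd.2,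
      Set.ncard_image_of_injective _ (fun a b h => (Prod.mk.inj h).2), agr]
    congr 1
    have : {z | z ∈ l ∧ y < z} = ((l.filter (fun z => decide (y < z))).toFinset : Set X) := by
      ext z
      simp
    rw [this, Set.ncard_coe_finset, List.toFinset_card_of_nodup (hnd.2.filter _),
      List.countP_eq_length_filter]

theorem numAgree_eq {l : List X} (h : IsLinearOrderList l) : numAgree l = agr l := by
  rw [← agr_eq l h.1, numAgree]
  congr 1
  ext p
  simp only [Set.mem_ofPred_eq]
  constructor
  · rintro ⟨h1, h2⟩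
    exact ⟨h1, h2, h.2 _⟩
  · rintro ⟨h1, h2, -⟩
    exact ⟨h1, h2⟩

theorem agreeSeq_eq (S : List X) (hS : IsLinearOrderList S) (i : ℕ) :
    agreeSeq X i = F S.length S i := by
  rw [← card_T _ _ hS.1, agreeSeq, ← Set.ncard_coe_finset]
  congr 1
  ext l
  rw [Set.mem_ofPred_eq, Finset.mem_coe, mem_T _ S rfl]
  constructor
  · rintro ⟨h1, h2⟩
    refine ⟨?_, by rw [← numAgree_eq h1]; exact h2⟩
    rw [List.perm_ext_iff_of_nodup h1.1 hS.1]
    intro a
    exact ⟨fun _ => hS.2 a, fun _ => h1.2 a⟩
  · rintro ⟨h1, h2⟩
    have h3 : IsLinearOrderList l := ⟨h1.nodup_iff.2 hS.1, fun x => h1.mem_iff.2 (hS.2 x)⟩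
    exact ⟨h3, by rw [numAgree_eq h3]; exact h2⟩

end gen

/-- the strict relations of the seven-element poset -/
def rel : List (Fin 7 × Fin 7) :=
  [(0, 3), (0, 4), (1, 4), (2, 4), (0, 5), (1, 5), (3, 5), (0, 6), (2, 6), (3, 6)]

/-- a seven-element poset -/
structure P7 where
  val : Fin 7
deriving DecidableEq

instance : Fintype P7 := Fintype.ofEquiv (Fin 7) ⟨P7.mk, P7.val, fun _ => rfl, fun _ => rfl⟩

theorem rel_antisymm : ∀ a b : Fin 7, (a = b ∨ (a, b) ∈ rel) → (b = a ∨ (b, a) ∈ rel) → a = b := by
  decide

theorem rel_trans : ∀ a b c : Fin 7, (a = b ∨ (a, b) ∈ rel) → (b = c ∨ (b, c) ∈ rel) →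
    (a = c ∨ (a, c) ∈ rel) := by
  decide

instance : PartialOrder P7 where
  le a b := a.val = b.val ∨ (a.val, b.val) ∈ rel
  le_refl a := Or.inl rfl
  le_trans a b c := rel_trans a.val b.val c.val
  le_antisymm a b h1 h2 := by
    have := rel_antisymm _ _ h1 h2
    cases a; cases b; simp_all

instance : DecidableLE P7 := fun a b =>
  inferInstanceAs (Decidable (a.val = b.val ∨ (a.val, b.val) ∈ rel))

instance : DecidableLT P7 := fun a b => inferInstanceAs (Decidable (a ≤ b ∧ ¬ b ≤ a))

def all7 : List P7 := [⟨0⟩, ⟨1⟩, ⟨2⟩, ⟨3⟩, ⟨4⟩, ⟨5⟩, ⟨6⟩]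

theorem all7_lin : IsLinearOrderList all7 := by
  constructor
  · decide
  · rintro ⟨x⟩
    fin_cases x <;> decide

theorem a4 : agreeSeq P7 4 = 792 := by
  rw [agreeSeq_eq all7 all7_lin]
  decide +kernel

theorem a5 : agreeSeq P7 5 = 764 := by
  rw [agreeSeq_eq all7 all7_lin]
  decide +kernel

theorem a6 : agreeSeq P7 6 = 792 := by
  rw [agreeSeq_eq all7 all7_lin]
  decide +kernel

theorem numComparable_P7 : numComparable P7 = 10 := by
  have : {p : P7 × P7 | p.1 < p.2} =
      (((Finset.univ : Finset (P7 × P7)).filter (fun p => p.1 < p.2) : Finset (P7 × P7)) :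
        Set (P7 × P7)) := by
    ext p; simp
  rw [numComparable, this, Set.ncard_coe_finset]
  decide +kernel

end Pool.Agent.H1.Agree
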